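import Pool.Agent.Helper45.AM.GoalsB
import Pool.Agent.Helper15.AM.GoalsG

/-!
# MP_cc6379_al, project AM: reduced products in an amalgam
-/

set_option autoImplicit false

open LaurentPolynomial Pool.Agent.Helper15.RA Pool.Agent.Helper45.AM Pool.Agent.Helper15.AM

noncomputable section

namespace Pool.Agent.Helper22.AM

theorem h_b_2 (hA : G_PA) (hC : G_PC) (hB : B_1) : B_2 := by
  intro S W H _ _ _ X
  obtain ⟨b1, -, b3, -, -, b6, b7, b8, -, -, b11, -, -⟩ := hB S W H X
  have addR : ∀ (P : Set S) (x : W), XR X.cs P x → ∀ g ∈ par X.cs P,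
      X.cs.length (x * g) = X.cs.length x + X.cs.length g :=
    fun P ↦ (hA S W X.M X.cs P).2.2
  have decR : ∀ (P : Set S) (w : W), ∃ x, ∃ g ∈ par X.cs P, XR X.cs P x ∧ w = x * g :=
    fun P ↦ (hA S W X.M X.cs P).2.1
  have addL : ∀ (P : Set S) (y : W), XL X.cs P y → ∀ g ∈ par X.cs P,
      X.cs.length (g * y) = X.cs.length g + X.cs.length y :=
    fun P ↦ (hC S W X.M X.cs P).2.2.2.2.1
  have hpos : ∀ a : W, a ≠ 1 → 0 < X.cs.length a := fun a ha ↦
    Nat.pos_of_ne_zero fun h ↦ ha (X.cs.length_eq_zero_iff.1 h)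
  have key : ∀ (n : ℕ) (b : Bool) (x g y : W), X.cs.length y ≤ n → X.Tp b x g y →
      X.cs.length (x * g * y) = X.cs.length x + X.cs.length g + X.cs.length y := by
    intro n
    induction n with
    | zero =>
      intro b x g y hy ht
      have hy0 : y = 1 := X.cs.length_eq_zero_iff.1 (Nat.le_zero.1 hy)
      obtain ⟨h1, h2, -, -⟩ := ht
      rw [hy0, mul_one, X.cs.length_one, add_zero]
      exact addR _ x h1 g h2
    | succ n ih =>
      intro b x g y hy ht
      obtain ⟨h1, h2, h3, h4⟩ := ht
      rcases eq_or_ne y 1 with rfl | hy1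
      · rw [mul_one, X.cs.length_one, add_zero]
        exact addR _ x h1 g h2
      · obtain ⟨a, y', rfl, ha1, ha2, ha3, ha4, ha5⟩ := b11 b y h4 hy1
        obtain ⟨z, k, hk, hz, rfl⟩ := decR X.K g
        have hzb : z ∈ par X.cs (X.F b) := by
          have := mul_mem h2 (inv_mem (b1 b hk))
          rwa [mul_inv_cancel_right] at this
        have hz1 : z ≠ 1 := by
          rintro rfl
          exact h3 (by rwa [one_mul])
        have hxz : XR X.cs (X.F (!b)) (x * z) := by
          have := b7 (!b) x z
          rw [Bool.not_not] at this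
          exact this h1 hzb hz hz1
        have hka : k * a ∈ par X.cs (X.F (!b)) := mul_mem (b1 (!b) hk) ha2
        have hka' : k * a ∉ par X.cs X.K := by
          intro h
          have : a ∈ par X.cs X.K := by
            have := mul_mem (inv_mem hk) h
            rwa [inv_mul_cancel_left] at this
          exact ha4 (b8 a (Or.inr ha3) this)
        have hlt := hpos a ha4
        have := ih (!b) (x * z) (k * a) y' (by omega) ⟨hxz, hka, hka', ha1⟩
        rw [addR _ x h1 z hzb, addL _ a ha3 k hk] at this
        rw [addR _ z hz k hk, ha5, show x * (z * k) * (a * y') = x * z * (k * a) * y' by group, this]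
        omega
  refine ⟨fun b x g y h ↦ key _ b x g y le_rfl h, fun b x k y hx hk hy ↦ ?_⟩
  rcases eq_or_ne x 1 with rfl | hx1
  · rw [one_mul, X.cs.length_one, zero_add]
    exact addL _ y ((b3 (!b) y).2 hy) k hk
  · obtain ⟨x', a, rfl, ha1, ha2, ha3, ha4, ha5⟩ := b6 b x hx hx1
    have hak' : a * k ∉ par X.cs X.K := by
      intro h
      have : a ∈ par X.cs X.K := by
        have := mul_mem h (inv_mem hk)
        rwa [mul_inv_cancel_right] at this
      exact ha4 (b8 a (Or.inl ha3) this)
    have := key _ (!b) x' (a * k) y le_rfl ⟨ha1, mul_mem ha2 (b1 (!b) hk), hak', hy⟩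
    rw [addR _ a ha3 k hk] at this
    rw [ha5, show x' * a * k * y = x' * (a * k) * y by group, this]
    omega

end Pool.Agent.Helper22.AM
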