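import Pool.Agent.Helper15.AM.GoalsG

/-!
# MP_cc6379_al, project AM: the order of `s_i s_j` is `m_ij`
-/

set_option autoImplicit false

open Pool.Agent.Helper15.AM

noncomputable section

namespace Pool.Agent.Helper22.AM

variable {S : Type} (M : CoxeterMatrix S)

/-- The bilinear form. -/
def Bf (k i : S) : ℝ := -Real.cos (Real.pi / M k i)

/-- The reflections of the contragredient representation. -/
def sg (i : S) : Module.End ℝ (S → ℝ) where
  toFun f := fun k ↦ f k - 2 * Bf M k i * f i
  map_add' f g := by
    ext k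
    simp only [Pi.add_apply]
    ring
  map_smul' r f := by
    ext k
    simp only [Pi.smul_apply, smul_eq_mul, RingHom.id_apply]
    ring

theorem sg_apply (i : S) (f : S → ℝ) (k : S) : sg M i f k = f k - 2 * Bf M k i * f i := rfl

theorem Bf_self (i : S) : Bf M i i = 1 := by
  simp [Bf]

theorem Bf_comm (i j : S) : Bf M i j = Bf M j i := by
  rw [Bf, Bf, M.symmetric i j]

theorem sg_sg (i : S) : sg M i * sg M i = 1 := by
  ext f k
  simp only [Module.End.mul_apply, Module.End.one_apply, sg_apply, Bf_self]
  ring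

/-- The coordinates `i`, `j` of `σ_i σ_j f`. -/
theorem T_pair (i j : S) (f : S → ℝ) : ((sg M i * sg M j) f i, (sg M i * sg M j) f j) =
    rot (Real.cos (Real.pi / M i j)) (f i, f j) := by
  have h1 : Bf M i j = -Real.cos (Real.pi / M i j) := rfl
  have h2 : Bf M j i = -Real.cos (Real.pi / M i j) := by rw [Bf_comm, h1]
  simp only [Module.End.mul_apply, sg_apply, Bf_self, h1, h2, rot]
  ext
  · ring
  · ring

theorem Tn_pair (i j : S) (f : S → ℝ) (n : ℕ) :
    (((sg M i * sg M j) ^ n) f i, ((sg M i * sg M j) ^ n) f j) =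
      (rot (Real.cos (Real.pi / M i j)))^[n] (f i, f j) := by
  induction n with
  | zero => simp
  | succ n ih =>
    rw [Function.iterate_succ_apply', ← ih, pow_succ', Module.End.mul_apply, T_pair]

/-- The linear form `λ_k`. -/
def lam (i j k : S) : ℝ × ℝ →ₗ[ℝ] ℝ where
  toFun p := -(2 * Bf M k j * p.2) - 2 * Bf M k i * (p.1 + 2 * Real.cos (Real.pi / M i j) * p.2)
  map_add' p q := by
    simp only [Prod.fst_add, Prod.snd_add]
    ring
  map_smul' r p := by
    simp only [Prod.smul_fst, Prod.smul_snd, smul_eq_mul, RingHom.id_apply]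
    ring

theorem lam_apply (i j k : S) (p : ℝ × ℝ) : lam M i j k p =
    -(2 * Bf M k j * p.2) - 2 * Bf M k i * (p.1 + 2 * Real.cos (Real.pi / M i j) * p.2) := rfl

theorem T_apply (i j k : S) (f : S → ℝ) :
    (sg M i * sg M j) f k = f k + lam M i j k (f i, f j) := by
  have h1 : Bf M i j = -Real.cos (Real.pi / M i j) := rfl
  simp only [Module.End.mul_apply, sg_apply, lam_apply, h1]
  ring

theorem Tn_apply (i j k : S) (f : S → ℝ) (n : ℕ) : ((sg M i * sg M j) ^ n) f k =
    f k + ∑ t ∈ Finset.range n,
      lam M i j k ((rot (Real.cos (Real.pi / M i j)))^[t] (f i, f j)) := by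
  induction n with
  | zero => simp
  | succ n ih =>
    rw [pow_succ', Module.End.mul_apply, T_apply, ih, Finset.sum_range_succ, Tn_pair, add_assoc]

theorem liftable (h : G_MAT) : M.IsLiftable (sg M) := by
  intro i j
  rcases eq_or_ne i j with rfl | hij
  · rw [M.diagonal, pow_one, sg_sg]
  · have hm := M.off_diagonal i j hij
    rcases eq_or_ne (M i j) 0 with h0 | h0
    · rw [h0, pow_zero]
    · ext f k
      rw [Tn_apply, ← map_sum, ((h _ hm).1 h0).2, map_zero, add_zero]
      rfl

theorem h_gord (h : G_MAT) : G_ORD := by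
  classical
  intro S W _ M cs i j
  rcases eq_or_ne i j with rfl | hij
  · rw [cs.simple_mul_simple_self, M.diagonal, orderOf_one]
  · refine Nat.dvd_antisymm (orderOf_dvd_of_pow_eq_one (cs.simple_mul_simple_pow i j)) ?_
    refine (h _ (M.off_diagonal i j hij)).2 _ fun p ↦ ?_
    have h1 := pow_orderOf_eq_one (cs.simple i * cs.simple j)
    have h2 := congrArg (cs.lift ⟨sg M, liftable M h⟩) h1
    rw [map_pow, map_mul, cs.lift_apply_simple (liftable M h),
      cs.lift_apply_simple (liftable M h), map_one] at h2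
    have h3 := Tn_pair M i j (fun k ↦ if k = i then p.1 else p.2)
      (orderOf (cs.simple i * cs.simple j))
    rw [h2] at h3
    simp only [Module.End.one_apply, if_true, if_neg hij.symm] at h3
    exact h3.symm

end Pool.Agent.Helper22.AM
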